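import Pool.Agent.N718.DC.Stm2

/-!
# Project DC (helper718), part PADC (helper314): few families are degenerate modulo high powers of `p`
-/

set_option autoImplicit false

namespace Pool.Agent.N314.DC

open Finset Pool.Agent.N718.DC

theorem quot_inj {H q : ℕ} {u v : ℤ} (hu : -(H : ℤ) ≤ u) (hv : -(H : ℤ) ≤ v)
    (hd : (q : ℤ) ∣ u - v) (h : (u + H).toNat / q = (v + H).toNat / q) : u = v := by
  have hu' : ((u + H).toNat : ℤ) = u + H := Int.toNat_of_nonneg (by linarith)
  have hv' : ((v + H).toNat : ℤ) = v + H := Int.toNat_of_nonneg (by linarith)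
  have hm : (u + H).toNat % q = (v + H).toNat % q := by
    have h0 : ((u + H).toNat : ℤ) % q = ((v + H).toNat : ℤ) % q := by
      rw [hu', hv']
      have h2 : v + H ≡ u + H [ZMOD q] := by
        rw [Int.modEq_iff_dvd]
        have : u + H - (v + H) = u - v := by ring
        rw [this]
        exact hd
      exact h2.symm
    exact_mod_cast h0
  have h1 := Nat.div_add_mod (u + H).toNat q
  have h2 := Nat.div_add_mod (v + H).toNat q
  rw [h, hm, h2] at h1
  have h3 : ((v + H).toNat : ℤ) = ((u + H).toNat : ℤ) := by exact_mod_cast h1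
  rw [hu', hv'] at h3
  linarith

theorem quot_lt {H q : ℕ} {u : ℤ} (hu : u ≤ H) : (u + H).toNat / q < 2 * H / q + 1 := by
  apply Nat.lt_succ_of_le
  apply Nat.div_le_div_right
  omega

theorem count {κ : Type} [Fintype κ] [DecidableEq κ] (H q : ℕ) (x y : κ) (hxy : x ≠ y)
    (S : Finset (κ → ℤ)) (hS : ∀ c ∈ S, ∀ z, -(H : ℤ) ≤ c z ∧ c z ≤ H)
    (h1 : ∀ c ∈ S, ∀ d ∈ S, (∀ z, z ≠ x → z ≠ y → c z = d z) → (q : ℤ) ∣ c y - d y)
    (h2 : ∀ c ∈ S, ∀ d ∈ S, (∀ z, z ≠ x → c z = d z) → (q : ℤ) ∣ c x - d x) :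
    S.card ≤ (2 * H + 1) ^ (Fintype.card κ - 2) * ((2 * H / q + 1) * (2 * H / q + 1)) := by
  set B : Finset (κ → ℤ) :=
    Fintype.piFinset (fun z => if z = x ∨ z = y then {0} else Icc (-(H : ℤ)) H) with hB
  have hBc : B.card = (2 * H + 1) ^ (Fintype.card κ - 2) := by
    rw [hB, Fintype.card_piFinset]
    have h0 : ∀ z : κ, (if z = x ∨ z = y then ({0} : Finset ℤ) else Icc (-(H : ℤ)) H).card =
        if z = x ∨ z = y then 1 else 2 * H + 1 := by
      intro z
      split_ifs
      · simp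
      · rw [Int.card_Icc]
        omega
    rw [Finset.prod_congr rfl (fun z _ => h0 z), Finset.prod_ite, Finset.prod_const_one, one_mul,
      Finset.prod_const]
    congr 1
    have h3 : univ.filter (fun z => ¬ (z = x ∨ z = y)) = ({x, y} : Finset κ)ᶜ := by ext; simp
    rw [h3, card_compl, card_pair hxy]
  have hle : S.card ≤ (B ×ˢ (range (2 * H / q + 1) ×ˢ range (2 * H / q + 1))).card := by
    apply Finset.card_le_card_of_injOn (fun c : κ → ℤ =>
      ((fun z => if z = x ∨ z = y then (0 : ℤ) else c z),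
        ((c x + (H : ℤ)).toNat / q, (c y + (H : ℤ)).toNat / q)))
    · intro c hc
      have hc' := hS c hc
      simp only [Finset.coe_product, Set.mem_prod, Finset.mem_coe, Finset.mem_range]
      refine ⟨?_, quot_lt (hc' x).2, quot_lt (hc' y).2⟩
      rw [hB, Fintype.mem_piFinset]
      intro z
      split_ifs
      · simp
      · rw [Finset.mem_Icc]
        exact hc' z
    · intro c hc d hd hcd
      simp only [Prod.mk.injEq] at hcd
      obtain ⟨e1, e2, e3⟩ := hcd
      have e4 : ∀ z, z ≠ x → z ≠ y → c z = d z := by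
        intro z hzx hzy
        have := congrFun e1 z
        simpa [hzx, hzy] using this
      have e5 : c y = d y := quot_inj (hS c hc y).1 (hS d hd y).1 (h1 c hc d hd e4) e3
      have e6 : ∀ z, z ≠ x → c z = d z := by
        intro z hzx
        by_cases hzy : z = y
        · rw [hzy, e5]
        · exact e4 z hzx hzy
      have e7 : c x = d x := quot_inj (hS c hc x).1 (hS d hd x).1 (h2 c hc d hd e6) e2
      funext z
      by_cases hzx : z = x
      · rw [hzx, e7]
      · exact e6 z hzx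
  refine hle.trans (le_of_eq ?_)
  rw [Finset.card_product, Finset.card_product, Finset.card_range, hBc]

theorem mem_BXI {ι : Type} [Fintype ι] [DecidableEq ι] {e : ι → ℕ} {H : ℕ}
    {c : (k : ι) → Fin (e k + 2) → ℤ} :
    c ∈ BXI e H ↔ ∀ k j, -(H : ℤ) ≤ c k j ∧ c k j ≤ H := by
  unfold BXI
  simp only [Fintype.mem_piFinset, Finset.mem_Icc]

theorem count2 {ι : Type} [Fintype ι] [DecidableEq ι] (e : ι → ℕ) (H q : ℕ)
    (x y : Σ k, Fin (e k + 2)) (hxy : x ≠ y) (T : Finset ((k : ι) → Fin (e k + 2) → ℤ))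
    (hT : T ⊆ BXI e H)
    (h1 : ∀ c ∈ T, ∀ d ∈ T, (∀ z : Σ k, Fin (e k + 2), z ≠ x → z ≠ y → c z.1 z.2 = d z.1 z.2) →
      (q : ℤ) ∣ c y.1 y.2 - d y.1 y.2)
    (h2 : ∀ c ∈ T, ∀ d ∈ T, (∀ z : Σ k, Fin (e k + 2), z ≠ x → c z.1 z.2 = d z.1 z.2) →
      (q : ℤ) ∣ c x.1 x.2 - d x.1 x.2) :
    T.card ≤ (2 * H + 1) ^ (ncI e - 2) * ((2 * H / q + 1) * (2 * H / q + 1)) := by
  classical
  let F : ((k : ι) → Fin (e k + 2) → ℤ) → ((Σ k, Fin (e k + 2)) → ℤ) := fun c z => c z.1 z.2
  have hF : Function.Injective F := by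
    intro c d h
    funext k j
    exact congrFun h ⟨k, j⟩
  have hc : Fintype.card (Σ k, Fin (e k + 2)) = ncI e := by
    rw [Fintype.card_sigma]
    unfold ncI
    simp
  have h := count H q x y hxy (T.image F) (by
      intro c hc z
      obtain ⟨c', hc', rfl⟩ := Finset.mem_image.1 hc
      exact mem_BXI.1 (hT hc') z.1 z.2) (by
      intro c hc d hd hcd
      obtain ⟨c', hc', rfl⟩ := Finset.mem_image.1 hc
      obtain ⟨d', hd', rfl⟩ := Finset.mem_image.1 hd
      exact h1 c' hc' d' hd' hcd) (by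
      intro c hc d hd hcd
      obtain ⟨c', hc', rfl⟩ := Finset.mem_image.1 hc
      obtain ⟨d', hd', rfl⟩ := Finset.mem_image.1 hd
      exact h2 c' hc' d' hd' hcd)
  rw [Finset.card_image_of_injective _ hF, hc] at h
  exact h

theorem fm_sub {e : ℕ} (c d : Fin (e + 2) → ℤ) (t : ℤ) (h : ∀ j, j ≠ 0 → c j = d j) :
    fm c 1 t - fm d 1 t = c 0 - d 0 := by
  unfold fm
  rw [Fin.sum_univ_succ, Fin.sum_univ_succ (f := fun j => d j * 1 ^ (e + 1 - (j : ℕ)) * t ^ (j : ℕ))]
  have h1 : ∀ i : Fin (e + 1), c i.succ = d i.succ := fun i => h _ (Fin.succ_ne_zero i)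
  simp only [h1]
  simp

theorem dm_sub {e : ℕ} (c d : Fin (e + 2) → ℤ) (t : ℤ) (h : ∀ j, j ≠ 0 → j ≠ 1 → c j = d j) :
    dm c t - dm d t = c 1 - d 1 := by
  unfold dm
  rw [← Finset.sum_sub_distrib, Finset.sum_eq_single (1 : Fin (e + 2))]
  · simp
  · intro j _ hj
    by_cases hj0 : j = 0
    · subst hj0; simp
    · rw [h j hj0 hj, sub_self]
  · intro h'
    exact absurd (Finset.mem_univ _) h'

theorem fm_mod {e : ℕ} (c : Fin (e + 2) → ℤ) (q t t' : ℤ) (h : q ∣ t - t') :
    q ∣ fm c 1 t ↔ q ∣ fm c 1 t' := by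
  apply dvd_iff_dvd_of_dvd_sub
  unfold fm
  rw [← Finset.sum_sub_distrib]
  apply Finset.dvd_sum
  intro j _
  rw [← mul_sub]
  exact Dvd.dvd.mul_left (h.trans (sub_dvd_pow_sub_pow t t' j)) _

theorem dm_mod {e : ℕ} (c : Fin (e + 2) → ℤ) (q t t' : ℤ) (h : q ∣ t - t') :
    q ∣ dm c t ↔ q ∣ dm c t' := by
  apply dvd_iff_dvd_of_dvd_sub
  unfold dm
  rw [← Finset.sum_sub_distrib]
  apply Finset.dvd_sum
  intro j _
  rw [← mul_sub]
  exact Dvd.dvd.mul_left (h.trans (sub_dvd_pow_sub_pow t t' _)) _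

open Classical in
theorem count_degen {ι : Type} [Fintype ι] [DecidableEq ι] (e : ι → ℕ) (p n H : ℕ)
    (hq : 0 < p ^ n) :
    ((BXI e H).filter (fun c => degen p n c)).card ≤
      p ^ n * ((Fintype.card ι * Fintype.card ι + Fintype.card ι) *
        ((2 * H + 1) ^ (ncI e - 2) * ((2 * H / p ^ n + 1) * (2 * H / p ^ n + 1)))) := by
  set N : ℕ := (2 * H + 1) ^ (ncI e - 2) * ((2 * H / p ^ n + 1) * (2 * H / p ^ n + 1)) with hN
  have hcast : ((p ^ n : ℕ) : ℤ) = (p : ℤ) ^ n := by push_cast; rfl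
  let TA : ℕ → ι × ι → Finset ((k : ι) → Fin (e k + 2) → ℤ) := fun t ab =>
    (BXI e H).filter (fun c => ab.1 ≠ ab.2 ∧ (p : ℤ) ^ n ∣ fm (c ab.1) 1 (t : ℤ) ∧
      (p : ℤ) ^ n ∣ fm (c ab.2) 1 (t : ℤ))
  let TB : ℕ → ι → Finset ((k : ι) → Fin (e k + 2) → ℤ) := fun t a =>
    (BXI e H).filter (fun c => (p : ℤ) ^ n ∣ fm (c a) 1 (t : ℤ) ∧ (p : ℤ) ^ n ∣ dm (c a) (t : ℤ))
  have hA : ∀ t ab, (TA t ab).card ≤ N := by
    intro t ab
    by_cases hab : ab.1 = ab.2
    · have : TA t ab = ∅ := by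
        apply Finset.filter_eq_empty_iff.2
        intro c _ h
        exact h.1 hab
      rw [this]
      simp
    · refine count2 e H (p ^ n) ⟨ab.1, 0⟩ ⟨ab.2, 0⟩ ?_ _ (Finset.filter_subset _ _) ?_ ?_
      · intro h
        exact hab (congrArg Sigma.fst h)
      · intro c hc d hd hcd
        have hc' := (Finset.mem_filter.1 hc).2.2.2
        have hd' := (Finset.mem_filter.1 hd).2.2.2
        have h1 := fm_sub (c ab.2) (d ab.2) (t : ℤ) (by
          intro j hj
          apply hcd ⟨ab.2, j⟩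
          · intro h
            exact hab (congrArg Sigma.fst h).symm
          · intro h
            apply hj
            have := (Sigma.mk.injEq _ _ _ _).mp h
            exact eq_of_heq this.2)
        rw [hcast]
        show (p : ℤ) ^ n ∣ c ab.2 0 - d ab.2 0
        rw [← h1]
        exact dvd_sub hc' hd'
      · intro c hc d hd hcd
        have hc' := (Finset.mem_filter.1 hc).2.2.1
        have hd' := (Finset.mem_filter.1 hd).2.2.1
        have h1 := fm_sub (c ab.1) (d ab.1) (t : ℤ) (by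
          intro j hj
          apply hcd ⟨ab.1, j⟩
          intro h
          apply hj
          have := (Sigma.mk.injEq _ _ _ _).mp h
          exact eq_of_heq this.2)
        rw [hcast]
        show (p : ℤ) ^ n ∣ c ab.1 0 - d ab.1 0
        rw [← h1]
        exact dvd_sub hc' hd'
  have hB : ∀ t a, (TB t a).card ≤ N := by
    intro t a
    refine count2 e H (p ^ n) ⟨a, 0⟩ ⟨a, 1⟩ ?_ _ (Finset.filter_subset _ _) ?_ ?_
    · intro h
      have h0 := eq_of_heq ((Sigma.mk.injEq _ _ _ _).mp h).2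
      exact absurd (congrArg Fin.val h0) (by simp)
    · intro c hc d hd hcd
      have hc' := (Finset.mem_filter.1 hc).2.2
      have hd' := (Finset.mem_filter.1 hd).2.2
      have h1 := dm_sub (c a) (d a) (t : ℤ) (by
        intro j hj hj1
        apply hcd ⟨a, j⟩
        · intro h
          exact hj (eq_of_heq ((Sigma.mk.injEq _ _ _ _).mp h).2)
        · intro h
          exact hj1 (eq_of_heq ((Sigma.mk.injEq _ _ _ _).mp h).2))
      rw [hcast]
      show (p : ℤ) ^ n ∣ c a 1 - d a 1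
      rw [← h1]
      exact dvd_sub hc' hd'
    · intro c hc d hd hcd
      have hc' := (Finset.mem_filter.1 hc).2.1
      have hd' := (Finset.mem_filter.1 hd).2.1
      have h1 := fm_sub (c a) (d a) (t : ℤ) (by
        intro j hj
        apply hcd ⟨a, j⟩
        intro h
        exact hj (eq_of_heq ((Sigma.mk.injEq _ _ _ _).mp h).2))
      rw [hcast]
      show (p : ℤ) ^ n ∣ c a 0 - d a 0
      rw [← h1]
      exact dvd_sub hc' hd'
  have hsub : (BXI e H).filter (fun c => degen p n c) ⊆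
      (range (p ^ n)).biUnion (fun t => (univ.biUnion (TA t)) ∪ (univ.biUnion (TB t))) := by
    intro c hc
    obtain ⟨hcB, t, ht⟩ := Finset.mem_filter.1 hc
    have hq' : (0 : ℤ) < (p : ℤ) ^ n := by rw [← hcast]; exact_mod_cast hq
    set t' : ℕ := (t % (p : ℤ) ^ n).toNat with ht'
    have ht0 : (t' : ℤ) = t % (p : ℤ) ^ n :=
      Int.toNat_of_nonneg (Int.emod_nonneg _ hq'.ne')
    have hdiv : (p : ℤ) ^ n ∣ t - t' := by
      rw [ht0]
      exact Int.dvd_self_sub_emod
    have ht1 : t' ∈ range (p ^ n) := by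
      rw [Finset.mem_range]
      have : (t' : ℤ) < (p : ℤ) ^ n := by rw [ht0]; exact Int.emod_lt_of_pos _ hq'
      rw [← hcast] at this
      exact_mod_cast this
    rw [Finset.mem_biUnion]
    refine ⟨t', ht1, ?_⟩
    rw [Finset.mem_union]
    rcases ht with ⟨a, b, hab, h1, h2⟩ | ⟨a, h1, h2⟩
    · left
      rw [Finset.mem_biUnion]
      exact ⟨(a, b), Finset.mem_univ _, Finset.mem_filter.2 ⟨hcB, hab,
        (fm_mod _ _ _ _ hdiv).1 h1, (fm_mod _ _ _ _ hdiv).1 h2⟩⟩
    · right
      rw [Finset.mem_biUnion]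
      exact ⟨a, Finset.mem_univ _, Finset.mem_filter.2 ⟨hcB,
        (fm_mod _ _ _ _ hdiv).1 h1, (dm_mod _ _ _ _ hdiv).1 h2⟩⟩
  refine (Finset.card_le_card hsub).trans ?_
  refine (Finset.card_biUnion_le_card_mul _ _
    ((Fintype.card ι * Fintype.card ι + Fintype.card ι) * N) ?_).trans ?_
  · intro t _
    refine (Finset.card_union_le _ _).trans ?_
    rw [add_mul]
    apply Nat.add_le_add
    · refine (Finset.card_biUnion_le_card_mul _ _ N (fun ab _ => hA t ab)).trans ?_
      rw [Finset.card_univ, Fintype.card_prod]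
    · refine (Finset.card_biUnion_le_card_mul _ _ N (fun a _ => hB t a)).trans ?_
      rw [Finset.card_univ]
  · rw [Finset.card_range]

theorem rv_rv {e : ℕ} (c : Fin (e + 2) → ℤ) : rv (rv c) = c := by
  funext j
  unfold rv
  rw [Fin.rev_rev]

open Classical in
theorem count_rv {ι : Type} [Fintype ι] [DecidableEq ι] (e : ι → ℕ) (p n H : ℕ) :
    ((BXI e H).filter (fun c => degen p n (fun a => rv (c a)))).card ≤
      ((BXI e H).filter (fun c => degen p n c)).card := by
  apply Finset.card_le_card_of_injOn (fun c a => rv (c a))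
  · intro c hc
    obtain ⟨h1, h2⟩ := Finset.mem_filter.1 hc
    apply Finset.mem_coe.2
    apply Finset.mem_filter.2
    refine ⟨?_, h2⟩
    rw [mem_BXI] at h1 ⊢
    intro k j
    exact h1 k _
  · intro c _ d _ h
    funext a
    have := congrFun h a
    simp only at this
    rw [← rv_rv (c a), this, rv_rv]

theorem padc_ : S_PADC := by
  classical
  intro ι _ _ e p hp η n₀ hη
  set K : ℕ := Fintype.card ι * Fintype.card ι + Fintype.card ι with hK
  -- choose `n`
  obtain ⟨n₁, hn₁⟩ := pow_unbounded_of_one_lt (8 * K / η) (show (1 : ℝ) < p by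
    exact_mod_cast hp.one_lt)
  refine ⟨max n₀ n₁, le_max_left _ _, p ^ (max n₀ n₁), ?_⟩
  intro H hH
  set n : ℕ := max n₀ n₁ with hn
  set q : ℕ := p ^ n with hq
  have hq0 : 0 < q := pow_pos hp.pos n
  have hq0' : (0 : ℝ) < q := by exact_mod_cast hq0
  have hqη : 8 * (K : ℝ) ≤ η * q := by
    have h1 : (p : ℝ) ^ n₁ ≤ (p : ℝ) ^ n :=
      pow_le_pow_right₀ (by exact_mod_cast hp.one_lt.le) (le_max_right _ _)
    have h2 : 8 * (K : ℝ) / η < q := by
      rw [hq]
      push_cast
      linarith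
    rw [div_lt_iff₀ hη] at h2
    linarith
  have hcard : ((BXI e H).filter (fun c => padBad p n c)).card ≤
      2 * (q * (K * ((2 * H + 1) ^ (ncI e - 2) * ((2 * H / q + 1) * (2 * H / q + 1))))) := by
    have h1 : (BXI e H).filter (fun c => padBad p n c) ⊆
        (BXI e H).filter (fun c => degen p n c) ∪
          (BXI e H).filter (fun c => degen p n (fun a => rv (c a))) := by
      intro c hc
      obtain ⟨h1, h2⟩ := Finset.mem_filter.1 hc
      rw [Finset.mem_union]
      rcases h2 with h2 | h2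
      · left; exact Finset.mem_filter.2 ⟨h1, h2⟩
      · right; exact Finset.mem_filter.2 ⟨h1, h2⟩
    have h2 := count_degen e p n H hq0
    have h3 := count_rv e p n H
    have h4 := (Finset.card_le_card h1).trans (Finset.card_union_le _ _)
    calc _ ≤ _ := h4
      _ ≤ _ := Nat.add_le_add h2 (h3.trans h2)
      _ = _ := by rw [hq, hK]; ring
  rcases isEmpty_or_nonempty ι with hι | hι
  · have hK0 : K = 0 := by rw [hK]; simp
    rw [hK0] at hcard
    have h0 : ((BXI e H).filter (fun c => padBad p n c)).card = 0 := by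
      have := hcard
      simp only [zero_mul, mul_zero] at this
      omega
    have h5 : (((BXI e H).filter (fun c => padBad p n c)).card : ℝ) = 0 := by exact_mod_cast h0
    rw [h5]
    positivity
  · have hnc : 2 ≤ ncI e := by
      unfold ncI
      obtain ⟨k⟩ := hι
      calc 2 ≤ e k + 2 := by omega
        _ ≤ ∑ k, (e k + 2) := Finset.single_le_sum (f := fun k => e k + 2)
          (fun _ _ => Nat.zero_le _) (Finset.mem_univ k)
    have hR : (((BXI e H).filter (fun c => padBad p n c)).card : ℝ) ≤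
        2 * (q * (K * ((2 * H + 1 : ℝ) ^ (ncI e - 2) *
          (((2 * H / q : ℕ) + 1 : ℝ) * ((2 * H / q : ℕ) + 1))))) := by
      exact_mod_cast hcard
    have hX : ((2 * H / q : ℕ) + 1 : ℝ) ≤ 2 * (2 * H + 1) / q := by
      have h1 : ((2 * H / q : ℕ) : ℝ) ≤ ((2 * H : ℕ) : ℝ) / q := Nat.cast_div_le
      have h2 : (1 : ℝ) ≤ (2 * H + 1) / q := by
        rw [le_div_iff₀ hq0', one_mul]
        have : q ≤ 2 * H + 1 := by omega
        exact_mod_cast this
      have h3 : ((2 * H : ℕ) : ℝ) / q ≤ (2 * H + 1) / q := by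
        apply div_le_div_of_nonneg_right _ hq0'.le
        push_cast
        linarith
      calc ((2 * H / q : ℕ) + 1 : ℝ) ≤ (2 * H + 1) / q + (2 * H + 1) / q := by linarith
        _ = _ := by ring
    have hX0 : (0 : ℝ) ≤ ((2 * H / q : ℕ) + 1 : ℝ) := by positivity
    refine hR.trans ?_
    calc 2 * (q * (K * ((2 * H + 1 : ℝ) ^ (ncI e - 2) *
          (((2 * H / q : ℕ) + 1 : ℝ) * ((2 * H / q : ℕ) + 1)))))
        ≤ 2 * (q * (K * ((2 * H + 1 : ℝ) ^ (ncI e - 2) *
          ((2 * (2 * H + 1) / q) * (2 * (2 * H + 1) / q))))) := by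
          gcongr
      _ = (8 * K) * ((2 * H + 1 : ℝ) ^ (ncI e - 2) * (2 * H + 1) ^ 2) / q := by
          field_simp
          ring
      _ = (8 * K) * (2 * H + 1 : ℝ) ^ (ncI e) / q := by
          rw [← pow_add, Nat.sub_add_cancel hnc]
      _ ≤ (η * q) * (2 * H + 1 : ℝ) ^ (ncI e) / q := by
          apply div_le_div_of_nonneg_right _ hq0'.le
          exact mul_le_mul_of_nonneg_right hqη (by positivity)
      _ = η * ((2 * H + 1 : ℕ) : ℝ) ^ ncI e := by
          push_cast
          field_simp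

end Pool.Agent.N314.DC
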